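import Mathlib

set_option autoImplicit false
open Set Metric MeasureTheory Filter Topology

namespace Pool.Agent.H.MP_b7ec12_an

lemma null : volume cantorSet = 0 := by
  have h (c : ℝ) := Measure.addHaar_image_homothety volume c (1 / 3 : ℝ) cantorSet
  have := (congrArg volume cantorSet_eq_union_halves).le.trans (measure_union_le _ _)
  rw [show (· / 3) = ⇑(AffineMap.homothety (0 : ℝ) (1 / 3 : ℝ)) by
      ext; simp [AffineMap.homothety_apply]; ring,
    show (fun x => (2 + x) / 3) = ⇑(AffineMap.homothety (1 : ℝ) (1 / 3 : ℝ)) by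
      ext; simp [AffineMap.homothety_apply]; ring, h, h, ← add_mul,
    ← ENNReal.ofReal_add (by positivity) (by positivity)] at this
  by_contra g
  refine ((ENNReal.mul_lt_mul_left g isCompact_cantorSet.measure_lt_top.ne ?_).trans_eq
    (one_mul _)).not_ge this
  simp; norm_num

lemma stair : ∃ c : ℝ → ℝ, Continuous c ∧ Monotone c ∧ c 0 = 0 ∧ c 1 = 1 ∧
    ∀ a b, a ≤ b → Disjoint (Ioc a b) cantorSet → c a = c b := by
  obtain ⟨e, em, ei⟩ := MeasurableSpace.measurable_injection_nat_bool_of_countablySeparated ℝ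
  let g : ℝ → ℝ := fun x => cantorSetHomeomorphNatToBool.symm (e x)
  have gm : Measurable g :=
    (continuous_subtype_val.comp cantorSetHomeomorphNatToBool.symm.continuous).measurable.comp em
  have gi : g.Injective := fun x y h => ei (cantorSetHomeomorphNatToBool.symm.injective (Subtype.ext h))
  have gc : ∀ x, g x ∈ cantorSet := fun x => (cantorSetHomeomorphNatToBool.symm (e x)).2
  let μ : Measure ℝ := (volume.restrict (Icc (0 : ℝ) 1)).map g
  have : IsProbabilityMeasure (volume.restrict (Icc (0 : ℝ) 1)) := ⟨by simp⟩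
  have : IsProbabilityMeasure μ := Measure.isProbabilityMeasure_map gm.aemeasurable
  have : NullSingletonClass μ := ⟨fun x => by
    rw [Measure.map_apply gm (measurableSet_singleton x)]
    exact (Set.subsingleton_singleton.preimage gi).measure_zero _⟩
  have hi : ∀ a b, IntervalIntegrable (fun _ : ℝ => (1 : ℝ)) μ a b := fun a b =>
    (integrable_const _).intervalIntegrable
  have hd : ∀ a b, a ≤ b → (∫ _ in (0 : ℝ)..b, (1 : ℝ) ∂μ) - ∫ _ in (0 : ℝ)..a, (1 : ℝ) ∂μ =
      μ.real (Ioc a b) := fun a b h => by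
    rw [intervalIntegral.integral_interval_sub_left (hi _ _) (hi _ _),
      intervalIntegral.integral_of_le h]
    simp
  refine ⟨fun b => ∫ _ in (0 : ℝ)..b, (1 : ℝ) ∂μ, intervalIntegral.continuous_primitive hi 0,
    fun a b h => ?_, by simp, ?_, fun a b h hc => ?_⟩
  · have := hd a b h
    have := measureReal_nonneg (μ := μ) (s := Ioc a b)
    simp only; linarith
  · have := hd 0 1 zero_le_one
    rw [measureReal_congr Ioc_ae_eq_Icc, map_measureReal_apply gm measurableSet_Icc,
      show g ⁻¹' Icc 0 1 = univ from eq_univ_of_forall fun x => cantorSet_subset_unitInterval (gc x),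
      probReal_univ] at this
    simpa using this
  · have := hd a b h
    rw [map_measureReal_apply gm measurableSet_Ioc, show g ⁻¹' Ioc a b = ∅ from
      eq_empty_of_forall_notMem fun x hx => disjoint_left.1 hc hx (gc x), measureReal_empty] at this
    simp only; linarith

theorem cant : ∃ c h : ℝ → ℝ, Continuous c ∧ Monotone c ∧ (∀ x (k : ℤ), c (x + k) = c x + k) ∧
    LipschitzWith 1 h ∧ (∀ x (k : ℤ), h (x + k) = h x) ∧ (∀ x, 0 ≤ h x) ∧ (∀ x, h x ≤ 1 / 2) ∧
    (∀ᵐ x, h x ≠ 0) ∧ ∀ x x', |x' - x| < h x → c x' = c x := by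
  obtain ⟨c, cc, cm, c0, c1, cd⟩ := stair
  let C : Set ℝ := (fun x : ℝ => (x : UnitAddCircle)) ⁻¹' ((fun x : ℝ => (x : UnitAddCircle)) '' cantorSet)
  have qc : Continuous fun x : ℝ => (x : UnitAddCircle) := AddCircle.continuous_mk' 1
  have Cc : IsClosed C := (isCompact_cantorSet.image qc).isClosed.preimage qc
  have Cm : ∀ x, x ∈ C ↔ ∃ k : ℤ, x - k ∈ cantorSet := fun x => by
    constructor
    · rintro ⟨z, hz, e⟩
      obtain ⟨k, hk⟩ := QuotientAddGroup.eq.1 e
      refine ⟨k, ?_⟩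
      have : x - k = z := by simp at hk; linarith
      rwa [this]
    · rintro ⟨k, hk⟩
      exact ⟨_, hk, QuotientAddGroup.eq.2 ⟨k, by simp⟩⟩
  have Cz : ∀ k : ℤ, (k : ℝ) ∈ C := fun k => (Cm _).2 ⟨k, by simpa using zero_mem_cantorSet⟩
  have Cn : C.Nonempty := ⟨_, Cz 0⟩
  have C0 : volume C = 0 := by
    refine measure_mono_null (t := ⋃ k : ℤ, (fun x : ℝ => x + (-k : ℝ)) ⁻¹' cantorSet)
      (fun x hx => ?_) (measure_iUnion_null fun k => ?_)
    · obtain ⟨k, hk⟩ := (Cm x).1 hx
      exact mem_iUnion.2 ⟨k, by simpa [sub_eq_add_neg] using hk⟩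
    · rw [measure_preimage_add_right, null]
  have cI : ∀ x, 0 ≤ c (Int.fract x) ∧ c (Int.fract x) ≤ 1 := fun x =>
    ⟨c0 ▸ cm (Int.fract_nonneg x), c1 ▸ cm (Int.fract_lt_one x).le⟩
  have key : ∀ a b, a ≤ b → (∀ z ∈ Icc a b, z ∉ C) →
      c (Int.fract a) + ⌊a⌋ = c (Int.fract b) + ⌊b⌋ := fun a b hab h => by
    have e : ⌊a⌋ = ⌊b⌋ := by
      refine le_antisymm (Int.floor_mono hab) (Int.le_floor.2 ?_)
      by_contra! g
      exact h _ ⟨g.le, Int.floor_le b⟩ (Cz _)
    rw [e, cd (Int.fract a) (Int.fract b) (by simp only [Int.fract, e]; linarith)]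
    refine disjoint_left.2 fun z hz hc => h (z + ⌊b⌋) ?_ ((Cm _).2 ⟨⌊b⌋, by simpa using hc⟩)
    simp only [Int.fract, e] at hz
    exact ⟨by linarith [hz.1], by linarith [hz.2]⟩
  refine ⟨fun x => c (Int.fract x) + ⌊x⌋, fun x => infDist x C, ?_, fun x y hxy => ?_,
    fun x k => by simp [add_assoc], lipschitz_infDist_pt C, fun x k => ?_, fun x => infDist_nonneg,
    fun x => ?_, ?_, fun x x' h => ?_⟩
  · have : Continuous ((fun x => c x - x) ∘ Int.fract) :=
      ContinuousOn.comp_fract'' (cc.sub continuous_id).continuousOn (by simp [c0, c1])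
    refine (this.add continuous_id).congr fun x => ?_
    simp only [Function.comp, Int.fract, Pi.add_apply, id]; ring
  · rcases (Int.floor_mono hxy).eq_or_lt with e | e
    · have : Int.fract x ≤ Int.fract y := by simp only [Int.fract, e]; linarith
      simp only [e]; linarith [cm this]
    · have : (⌊x⌋ : ℝ) + 1 ≤ ⌊y⌋ := by exact_mod_cast e
      simp only; linarith [(cI x).2, (cI y).1]
  · have : (fun x : ℝ => x + k) '' C = C := by
      ext y
      simp only [image_add_right, mem_preimage, Cm]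
      exact ⟨fun ⟨l, h⟩ => ⟨k + l, by convert h using 1; push_cast; ring⟩,
        fun ⟨l, h⟩ => ⟨l - k, by convert h using 1; push_cast; ring⟩⟩
    conv_lhs => rw [← this]
    exact infDist_image (isometry_add_right (k : ℝ))
  · exact (infDist_le_dist_of_mem (Cz (round x))).trans (abs_sub_round x)
  · exact (measure_eq_zero_iff_ae_notMem.1 C0).mono fun x hx h => hx ((Cc.mem_iff_infDist_zero Cn).2 h)
  · have g : ∀ z, |z - x| ≤ |x' - x| → z ∉ C := fun z hz => notMem_of_dist_lt_infDist (by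
      rw [dist_comm]; exact hz.trans_lt h)
    rcases le_total x x' with e | e
    · refine (key x x' e fun z hz => g z ?_).symm
      rw [abs_of_nonneg (sub_nonneg.2 hz.1), abs_of_nonneg (sub_nonneg.2 e)]; linarith [hz.2]
    · refine key x' x e fun z hz => g z ?_
      rw [abs_of_nonpos (sub_nonpos.2 hz.2), abs_of_nonpos (sub_nonpos.2 e)]; linarith [hz.1]

theorem rho : ∃ ρ ρ' : ℝ → ℝ, (∀ y, HasDerivAt ρ (ρ' y) y) ∧ Continuous ρ' ∧ (∀ y, |ρ' y| ≤ 1) ∧
    (∀ y (k : ℤ), ρ (y + k) = ρ y) ∧ (∀ y, 0 ≤ ρ y) ∧ (∀ y, ρ y ≤ 1) ∧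
    (∀ y, |y - 1 / 2| ≤ 1 / 2 → ρ y ≤ |y - 1 / 2|) ∧ {y | ρ y = 0}.Countable := by
  have p4 := Real.pi_le_four
  have p0 := Real.pi_pos
  refine ⟨fun y => (1 + Real.cos (2 * Real.pi * y)) / 16,
    fun y => -Real.sin (2 * Real.pi * y) * (2 * Real.pi) / 16, fun y => ?_, by fun_prop,
    fun y => ?_, fun y k => ?_, fun y => ?_, fun y => ?_, fun y hy => ?_, ?_⟩
  · have := (((hasDerivAt_id y).const_mul (2 * Real.pi)).cos.const_add 1).div_const 16
    simpa using this
  · rw [abs_le]
    constructor <;> nlinarith [Real.sin_le_one (2 * Real.pi * y), Real.neg_one_le_sin (2 * Real.pi * y)]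
  · simp only [mul_add]
    rw [mul_comm (2 * Real.pi) (k : ℝ), Real.cos_add_int_mul_two_pi]
  · linarith [Real.neg_one_le_cos (2 * Real.pi * y)]
  · linarith [Real.cos_le_one (2 * Real.pi * y)]
  · have h1 := Real.one_sub_sq_div_two_le_cos (x := 2 * Real.pi * y - Real.pi)
    rw [Real.cos_sub_pi, show 2 * Real.pi * y - Real.pi = 2 * Real.pi * (y - 1 / 2) by ring,
      mul_pow, ← sq_abs (y - 1 / 2)] at h1
    have h2 := abs_nonneg (y - 1 / 2)
    have h3 : (2 * Real.pi) ^ 2 ≤ 64 := by nlinarith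
    have h4 : |y - 1 / 2| ^ 2 ≤ |y - 1 / 2| / 2 := by nlinarith
    have h5 := mul_le_mul h3 h4 (by positivity) (by norm_num)
    simp only; linarith
  · refine (countable_range fun k : ℤ => (1 / 2 + k : ℝ)).mono fun y hy => ?_
    have : Real.cos (2 * Real.pi * y) = -1 := by simp only [mem_ofPred_eq] at hy; linarith
    obtain ⟨k, hk⟩ := Real.cos_eq_neg_one_iff.1 this
    exact ⟨k, mul_left_cancel₀ (by positivity : 2 * Real.pi ≠ 0) (by simp only; linarith)⟩

theorem tau {h : ℝ → ℝ} (hc : Continuous h) (hp : ∀ x (k : ℤ), h (x + k) = h x) (h0 : ∀ x, 0 ≤ h x)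
    (hz : ∀ᵐ x, h x ≠ 0) : ∃ S : ℝ ≃o ℝ, (∀ x, HasDerivAt S (h x) x) ∧ S 0 = 0 ∧
      ∀ x, S (x + 1) = S x + S 1 := by
  have hp1 : Function.Periodic h 1 := fun x => by simpa using hp x 1
  have hi : ∀ a b, IntervalIntegrable h volume a b := hc.intervalIntegrable
  have pos : ∀ a b, a < b → 0 < ∫ x in a..b, h x := fun a b hab => by
    refine (intervalIntegral.integral_pos_iff_support_of_nonneg_ae (.of_forall h0) (hi a b)).2
      ⟨hab, ?_⟩
    have : (Function.support h ∩ Ioc a b : Set ℝ) =ᵐ[volume] Ioc a b :=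
      hz.mono fun x hx => propext ⟨fun h => h.2, fun h => ⟨hx, h⟩⟩
    rw [measure_congr this]; simpa using hab
  have sm : StrictMono fun t => ∫ x in (0 : ℝ)..t, h x := fun a b hab => by
    have := intervalIntegral.integral_interval_sub_left (hi 0 b) (hi 0 a)
    simp only; linarith [pos a b hab]
  have sj : Function.Surjective fun t => ∫ x in (0 : ℝ)..t, h x :=
    (intervalIntegral.continuous_primitive hi 0).surjective
      (hp1.tendsto_atTop_intervalIntegral_of_pos (pos 0 1 one_pos) one_pos)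
      (hp1.tendsto_atBot_intervalIntegral_of_pos (pos 0 1 one_pos) one_pos)
  refine ⟨sm.orderIsoOfSurjective _ sj, fun x => (hc.integral_hasStrictDerivAt 0 x).hasDerivAt, by simp,
    fun x => ?_⟩
  simpa using hp1.intervalIntegral_add_eq_add 0 x hi

end Pool.Agent.H.MP_b7ec12_an
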