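import Mathlib

set_option autoImplicit false
open Set Metric MeasureTheory Filter Topology

namespace Pool.Agent.H.MP_b7ec12_an

theorem wk {E V : Type*} [NormedAddCommGroup E] [NormedSpace ℝ E] [MeasurableSpace E] [BorelSpace E]
    [SecondCountableTopology E] (μ : Measure E) [SFinite μ] [μ.IsAddRightInvariant]
    [NormedAddCommGroup V] [NormedSpace ℝ V] [CompleteSpace V] (G G' : E → V) (v : E)
    (hc : Continuous G) (hi : Integrable G μ) (hm : StronglyMeasurable G') (hi' : Integrable G' μ)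
    (hd : ∀ᵐ p ∂μ, ∃ N : Set ℝ, N.Countable ∧
      ∀ s ∉ N, HasDerivAt (fun s : ℝ => G (p + s • v)) (G' (p + s • v)) s) :
    ∫ p, G' p ∂μ = 0 := by
  have K : Integrable (Function.uncurry fun (p : E) (s : ℝ) => G' (p + s • v))
      (μ.prod (volume.restrict (Ioc (0 : ℝ) 1))) := by
    refine (integrable_prod_iff' (hm.comp_measurable (g := fun q : E × ℝ => q.1 + q.2 • v)
      (by fun_prop)).aestronglyMeasurable).2 ⟨.of_forall fun s => hi'.comp_add_right (s • v), ?_⟩
    have : (fun s : ℝ => ∫ p, ‖G' (p + s • v)‖ ∂μ) = fun _ => ∫ p, ‖G' p‖ ∂μ :=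
      funext fun s => integral_add_right_eq_self (fun p => ‖G' p‖) _
    exact this ▸ integrable_const _
  have h1 := integral_integral_swap K
  have h2 : ∫ s in Ioc (0 : ℝ) 1, ∫ p, G' (p + s • v) ∂μ = ∫ p, G' p ∂μ := by
    simp [integral_add_right_eq_self G']
  have h3 : ∫ p, (∫ s in Ioc (0 : ℝ) 1, G' (p + s • v)) ∂μ = ∫ p, (G (p + v) - G p) ∂μ := by
    refine integral_congr_ae ?_
    filter_upwards [hd, K.prod_right_ae] with p ⟨N, hN, h⟩ hp
    rw [← intervalIntegral.integral_of_le zero_le_one,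
      integral_eq_of_hasDerivAt_off_countable_of_le (fun s : ℝ => G (p + s • v)) _ zero_le_one hN
        (by fun_prop) (fun s hs => h s hs.2)
        ((intervalIntegrable_iff_integrableOn_Ioc_of_le zero_le_one).2 hp)]
    simp
  rw [← h2, ← h1, h3, integral_sub (hi.comp_add_right v) hi, integral_add_right_eq_self, sub_self]

theorem weak {E V : Type*} [NormedAddCommGroup E] [NormedSpace ℝ E] [MeasurableSpace E]
    [BorelSpace E] [SecondCountableTopology E] (μ : Measure E) [SFinite μ] [μ.IsAddRightInvariant]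
    [IsFiniteMeasureOnCompacts μ] [NormedAddCommGroup V] [NormedSpace ℝ V] [CompleteSpace V]
    (f g : E → V) (v : E) (hc : Continuous f) (hm : StronglyMeasurable g)
    (hd : ∀ᵐ p ∂μ, ∃ N : Set ℝ, N.Countable ∧
      ∀ s ∉ N, HasDerivAt (fun s : ℝ => f (p + s • v)) (g (p + s • v)) s)
    (φ : E → ℝ) (hφ : ContDiff ℝ 1 φ) (hs : HasCompactSupport φ)
    (hi : IntegrableOn g (tsupport φ) μ) :
    ∫ p, fderiv ℝ φ p v • f p ∂μ = - ∫ p, φ p • g p ∂μ := by
  have c1 : Continuous fun p => fderiv ℝ φ p v :=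
    (hφ.continuous_fderiv one_ne_zero).clm_apply continuous_const
  have i1 : Integrable (fun p => fderiv ℝ φ p v • f p) μ :=
    (c1.smul hc).integrable_of_hasCompactSupport (hs.fderiv_apply ℝ v).smul_right
  have i2 : Integrable (fun p => φ p • g p) μ := by
    refine (integrableOn_iff_integrable_of_support_subset (s := tsupport φ)
      ((Function.support_smul_subset_left _ _).trans subset_closure)).1 ?_
    exact hi.continuousOn_smul hφ.continuous.continuousOn hs
  rw [eq_neg_iff_add_eq_zero, ← integral_add i1 i2]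
  refine wk μ (fun p => φ p • f p) _ v (hφ.continuous.smul hc)
    ((hφ.continuous.smul hc).integrable_of_hasCompactSupport hs.smul_right)
    ((c1.smul hc).stronglyMeasurable.add (hφ.continuous.stronglyMeasurable.smul hm)) (i1.add i2) ?_
  filter_upwards [hd] with p ⟨N, hN, h⟩
  refine ⟨N, hN, fun s hs => ?_⟩
  have h1 : HasDerivAt (fun s : ℝ => p + s • v) v s := by
    simpa using ((hasDerivAt_id s).smul_const v).const_add p
  have h2 := (hφ.differentiable one_ne_zero (p + s • v)).hasFDerivAt.comp_hasDerivAt s h1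
  exact (h2.smul (h s hs)).congr_deriv (add_comm _ _)

noncomputable def avg (c ρ : ℝ → ℝ) (x y : ℝ) : ℝ := (∫ v in (-1 : ℝ)..1, c (x + ρ y * v)) / 2

noncomputable def dx (c ρ : ℝ → ℝ) (x y : ℝ) : ℝ := (c (x + ρ y) - c (x - ρ y)) / (2 * ρ y)

noncomputable def dy (c ρ ρ' : ℝ → ℝ) (x y : ℝ) : ℝ :=
  ρ' y * (((c (x + ρ y) + c (x - ρ y)) / 2 - avg c ρ x y) / ρ y)

variable {c ρ ρ' : ℝ → ℝ}

theorem avg_cont (hc : Continuous c) (hρ : Continuous ρ) :
    Continuous fun p : ℝ × ℝ => avg c ρ p.1 p.2 :=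
  (intervalIntegral.continuous_parametric_intervalIntegral_of_continuous'
    (f := fun (p : ℝ × ℝ) v => c (p.1 + ρ p.2 * v)) (by fun_prop) _ _).div_const _

theorem avg_eq (hc : Continuous c) {x y : ℝ} (h : ρ y ≠ 0) : avg c ρ x y =
    ((∫ t in (0 : ℝ)..(x + ρ y), c t) - ∫ t in (0 : ℝ)..(x - ρ y), c t) / (2 * ρ y) := by
  rw [avg, intervalIntegral.integral_comp_add_mul c h, intervalIntegral.integral_interval_sub_left
    (hc.intervalIntegrable _ _) (hc.intervalIntegrable _ _), mul_one, mul_neg_one, ← sub_eq_add_neg,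
    smul_eq_mul]
  field_simp

theorem avg_bd (hc : Continuous c) (hm : Monotone c) {x y : ℝ} (h : 0 ≤ ρ y) :
    c (x - ρ y) ≤ avg c ρ x y ∧ avg c ρ x y ≤ c (x + ρ y) := by
  have i : IntervalIntegrable (fun v => c (x + ρ y * v)) volume (-1) 1 :=
    Continuous.intervalIntegrable (by fun_prop) _ _
  have h1 := intervalIntegral.integral_mono_on (by norm_num : (-1 : ℝ) ≤ 1)
    (intervalIntegrable_const (c := c (x - ρ y))) i fun v hv => hm (by nlinarith [hv.1])
  have h2 := intervalIntegral.integral_mono_on (by norm_num : (-1 : ℝ) ≤ 1) i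
    (intervalIntegrable_const (c := c (x + ρ y))) fun v hv => hm (by nlinarith [hv.2])
  simp only [intervalIntegral.integral_const, smul_eq_mul] at h1 h2
  unfold avg
  constructor <;> linarith

theorem avg_dx (hc : Continuous c) (x : ℝ) {y : ℝ} (h : ρ y ≠ 0) :
    HasDerivAt (fun x => avg c ρ x y) (dx c ρ x y) x := by
  have I := fun t => (hc.integral_hasStrictDerivAt 0 t).hasDerivAt
  simp only [avg_eq hc h]
  exact (((I _).comp_add_const x (ρ y)).sub ((I _).comp_sub_const x (ρ y))).div_const _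

theorem avg_dy (hc : Continuous c) (hρ : ∀ y, HasDerivAt ρ (ρ' y) y) (x : ℝ) {y : ℝ} (h : ρ y ≠ 0) :
    HasDerivAt (fun y => avg c ρ x y) (dy c ρ ρ' x y) y := by
  have I := fun t => (hc.integral_hasStrictDerivAt 0 t).hasDerivAt
  have h1 := (((I _).comp y ((hρ y).const_add x)).sub ((I _).comp y ((hρ y).const_sub x))).div
    ((hρ y).const_mul 2) (mul_ne_zero two_ne_zero h)
  refine (h1.congr_of_eventuallyEq ?_).congr_deriv ?_
  · filter_upwards [(hρ y).continuousAt.eventually_ne h] with z hz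
    exact avg_eq hc hz
  · simp only [dy, avg_eq hc h, Function.comp, Pi.sub_apply]
    field_simp
    ring

theorem dx_nonneg (hm : Monotone c) {x y : ℝ} (h : 0 ≤ ρ y) : 0 ≤ dx c ρ x y :=
  div_nonneg (sub_nonneg.2 (hm (by linarith))) (by positivity)

theorem dy_le (hc : Continuous c) (hm : Monotone c) {x y : ℝ} (h : 0 ≤ ρ y) (h' : |ρ' y| ≤ 1) :
    |dy c ρ ρ' x y| ≤ dx c ρ x y := by
  obtain ⟨h1, h2⟩ := avg_bd (x := x) hc hm h
  rw [dy, abs_mul, abs_div, abs_of_nonneg h, dx, ← div_div]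
  refine (mul_le_of_le_one_left (by positivity) h').trans (div_le_div_of_nonneg_right ?_ h)
  rw [abs_le]
  constructor <;> linarith

theorem dx_meas (hc : Continuous c) (hρ : Continuous ρ) :
    Measurable fun p : ℝ × ℝ => dx c ρ p.1 p.2 :=
  Measurable.div (by fun_prop) (by fun_prop)

theorem dy_meas (hc : Continuous c) (hρ : Continuous ρ) (hρ' : Continuous ρ') :
    Measurable fun p : ℝ × ℝ => dy c ρ ρ' p.1 p.2 :=
  Measurable.mul (by fun_prop) (Measurable.div (Measurable.sub (by fun_prop)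
    (avg_cont hc hρ).measurable) (by fun_prop))

theorem dx_int (hc : Continuous c) (hm : Monotone c) (hρ : Continuous ρ) (h0 : ∀ y, 0 ≤ ρ y)
    (h1 : ∀ y, ρ y ≤ 1) {R : ℝ} (hR : 0 ≤ R) :
    IntegrableOn (fun p : ℝ × ℝ => dx c ρ p.1 p.2) (Icc (-R) R ×ˢ Icc (-R) R) := by
  rw [IntegrableOn, Measure.volume_eq_prod, ← Measure.prod_restrict]
  have hx : ∀ y, Continuous fun x => dx c ρ x y := fun y => by unfold dx; fun_prop
  have am := (dx_meas hc hρ).aestronglyMeasurable
    (μ := (volume.restrict (Icc (-R) R)).prod (volume.restrict (Icc (-R) R)))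
  refine (integrable_prod_iff' am).2 ⟨.of_forall fun y => (hx y).integrableOn_Icc,
    Integrable.of_bound am.prod_swap.norm.integral_prod_right' (c (R + 1) - c (-R - 1))
      (.of_forall fun y => ?_)⟩
  rw [Real.norm_eq_abs, abs_of_nonneg (integral_nonneg fun x => norm_nonneg _)]
  simp only [Real.norm_eq_abs, abs_of_nonneg (dx_nonneg hm (h0 y))]
  by_cases h : ρ y = 0
  · simp only [dx, h, mul_zero, div_zero, integral_zero]
    exact sub_nonneg.2 (hm (by linarith))
  · rw [integral_Icc_eq_integral_Ioc, ← intervalIntegral.integral_of_le (by linarith),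
      intervalIntegral.integral_eq_sub_of_hasDerivAt (fun x _ => avg_dx hc x h)
        ((hx y).intervalIntegrable _ _)]
    have a1 := (avg_bd (x := R) hc hm (h0 y)).2
    have a2 := (avg_bd (x := -R) hc hm (h0 y)).1
    have a3 : c (R + ρ y) ≤ c (R + 1) := hm (by linarith [h1 y])
    have a4 : c (-R - 1) ≤ c (-R - ρ y) := hm (by linarith [h1 y])
    linarith

theorem avg_per (hc : Continuous c) (hp : ∀ x (k : ℤ), c (x + k) = c x + k)
    (hρ : ∀ y (k : ℤ), ρ (y + k) = ρ y) (x y : ℝ) (k l : ℤ) :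
    avg c ρ (x + k) (y + l) = avg c ρ x y + k := by
  simp only [avg, hρ, add_right_comm x (k : ℝ), hp]
  rw [intervalIntegral.integral_add (Continuous.intervalIntegrable (by fun_prop) _ _)
    intervalIntegrable_const]
  simp only [intervalIntegral.integral_const, smul_eq_mul]
  ring

theorem flat {x y : ℝ} (h0 : 0 ≤ ρ y) (h : ∀ x', |x' - x| ≤ ρ y → c x' = c x) :
    avg c ρ x y = c x ∧ dx c ρ x y = 0 ∧ dy c ρ ρ' x y = 0 := by
  have h1 : avg c ρ x y = c x := by
    rw [avg, intervalIntegral.integral_congr (g := fun _ => c x) fun v hv => h _ (by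
      rw [uIcc_of_le (by norm_num)] at hv
      rw [add_sub_cancel_left, abs_mul, abs_of_nonneg h0]
      exact mul_le_of_le_one_right h0 (abs_le.2 hv))]
    simp only [intervalIntegral.integral_const, smul_eq_mul]
    ring
  have h2 := h (x + ρ y) (by simp [abs_of_nonneg h0])
  have h3 := h (x - ρ y) (by simp [abs_of_nonneg h0])
  simp [dx, dy, h1, h2, h3]

end Pool.Agent.H.MP_b7ec12_an
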