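import Mathlib

set_option autoImplicit false
open Set Metric MeasureTheory Filter Topology
open scoped ENNReal

namespace Pool.Agent.H.MP_b7ec12_an

variable {h : ℝ → ℝ} {S : ℝ ≃o ℝ}

theorem cov (hS : ∀ x, HasDerivAt S (h x) x) (h0 : ∀ x, 0 ≤ h x) (hz : ∀ᵐ x, h x ≠ 0) {φ : ℝ → ℝ}
    (hφ : ∀ a b, IntervalIntegrable φ volume a b) (x : ℝ) {t : ℝ} (ht : 0 ≤ t) :
    IntervalIntegrable (fun s => φ (S.symm (S x + s)) / h (S.symm (S x + s))) volume 0 t ∧
    ∫ s in (0 : ℝ)..t, φ (S.symm (S x + s)) / h (S.symm (S x + s)) =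
      ∫ z in x..S.symm (S x + t), φ z := by
  have hab : x ≤ S.symm (S x + t) := S.le_symm_apply.2 (by linarith)
  let G : ℝ → ℝ := fun s => φ (S.symm s) / h (S.symm s)
  have e : (fun z => h z • G (S z)) =ᵐ[volume] φ := hz.mono fun z hz => by
    simp only [G, OrderIso.symm_apply_apply, smul_eq_mul]; field_simp
  have h1 := integrableOn_Icc_deriv_smul_iff_of_deriv_nonneg (g := G) S.continuous.continuousOn
    (fun z _ => hS z) (fun z _ => h0 z) hab
  have h2 := integral_Icc_deriv_smul_of_deriv_nonneg (g := G) S.continuous.continuousOn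
    (fun z _ => hS z) (fun z _ => h0 z) hab
  rw [OrderIso.apply_symm_apply] at h1 h2
  have hl : S x ≤ S x + t := by linarith
  constructor
  · have := ((intervalIntegrable_iff_integrableOn_Icc_of_le hl).2 (h1.1
      (((intervalIntegrable_iff_integrableOn_Icc_of_le hab).1 (hφ _ _)).congr
        (ae_restrict_of_ae e.symm)))).comp_add_left (S x)
    simpa using this
  · rw [integral_congr_ae (ae_restrict_of_ae e), integral_Icc_eq_integral_Ioc,
      integral_Icc_eq_integral_Ioc, ← intervalIntegral.integral_of_le hab,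
      ← intervalIntegral.integral_of_le hl] at h2
    rw [h2, intervalIntegral.integral_comp_add_left G, add_zero]

theorem nullt (hS : ∀ x, HasDerivAt S (h x) x) (a : ℝ) : ∀ᵐ s, h (S.symm (a + s)) ≠ 0 := by
  have hm : Measurable h := by
    have : h = deriv S := funext fun x => (hS x).deriv.symm
    rw [this]; exact measurable_deriv _
  have h1 := lintegral_deriv_eq_volume_image_of_monotoneOn (hm (measurableSet_singleton 0))
    (fun x _ => (hS x).hasDerivWithinAt) (S.monotone.monotoneOn _)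
  rw [setLIntegral_eq_zero (hm (measurableSet_singleton 0)) fun x hx => by
    simp [show h x = 0 from hx]] at h1
  have h2 := (measure_preimage_add volume a _).trans h1.symm
  filter_upwards [measure_eq_zero_iff_ae_notMem.1 h2] with s hs e
  exact hs ⟨_, e, S.apply_symm_apply _⟩

theorem shift {σ : ℝ} (hσ : 0 < σ) {N : ℝ → ℝ≥0∞} (hN : Function.Periodic N σ) (t : ℝ) :
    ∫⁻ s in Ico 0 σ, N (s + t) = ∫⁻ s in Ico 0 σ, N s := by
  have : Fact (0 < σ) := ⟨hσ⟩
  have h1 := AddCircle.lintegral_preimage σ 0 hN.lift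
  have h2 := AddCircle.lintegral_preimage σ t hN.lift
  simp only [Function.Periodic.lift_coe, zero_add] at h1 h2
  rw [setLIntegral_congr Ico_ae_eq_Ioc, setLIntegral_congr Ico_ae_eq_Ioc, h1, ← h2,
    ← (measurePreserving_add_right volume t).setLIntegral_comp_preimage_emb
      (measurableEmbedding_addRight t) N (Ioc t (t + σ))]
  simp

theorem pipe (hc : Continuous h) (h0 : ∀ x, 0 ≤ h x) (K : ℝ × ℝ → ℝ≥0∞) (hK : Measurable K) :
    ∫⁻ p in (Ico (0 : ℝ) 1 ×ˢ univ) ∩ {p : ℝ × ℝ | |p.2 - 1 / 2| < h p.1}, K p =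
      ∫⁻ x in Ico (0 : ℝ) 1, ENNReal.ofReal (h x) *
        ∫⁻ u in Ioo (-1 : ℝ) 1, K (x, 1 / 2 + u * h x) := by
  have W : MeasurableSet {p : ℝ × ℝ | |p.2 - 1 / 2| < h p.1} :=
    (isOpen_lt (by fun_prop) (by fun_prop)).measurableSet
  rw [inter_comm, ← Measure.restrict_restrict W, ← lintegral_indicator W, Measure.volume_eq_prod,
    ← Measure.restrict_prod_eq_prod_univ, lintegral_prod _ (hK.indicator W).aemeasurable]
  refine lintegral_congr fun x => ?_
  rcases (h0 x).eq_or_lt with e | e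
  · rw [← e, ENNReal.ofReal_zero, zero_mul]
    refine (lintegral_congr fun y => indicator_of_notMem ?_ _).trans lintegral_zero
    simp [← e]
  · have h1 := lintegral_image_eq_lintegral_deriv_mul_of_monotoneOn (s := Ioo (-1 : ℝ) 1)
      (f := fun u => 1 / 2 + u * h x) (f' := fun _ => h x) measurableSet_Ioo
      (fun u _ => ((hasDerivAt_mul_const (h x)).const_add _).hasDerivWithinAt)
      (fun a _ b _ hab => by simp only; gcongr) fun y => K (x, y)
    rw [lintegral_const_mul' _ _ ENNReal.ofReal_ne_top] at h1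
    have h2 : (fun u => 1 / 2 + u * h x) '' Ioo (-1 : ℝ) 1 = {y | |y - 1 / 2| < h x} := by
      ext y
      simp only [mem_image, mem_Ioo, mem_ofPred_eq, abs_lt]
      constructor
      · rintro ⟨u, ⟨a, b⟩, rfl⟩
        constructor <;> nlinarith
      · rintro ⟨a, b⟩
        refine ⟨(y - 1 / 2) / h x, ⟨?_, ?_⟩, by field_simp; ring⟩
        · rw [lt_div_iff₀ e]; linarith
        · rw [div_lt_iff₀ e]; linarith
    rw [← h1, h2, ← lintegral_indicator (isOpen_lt (by fun_prop) (by fun_prop)).measurableSet]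
    rfl

noncomputable def fl (h : ℝ → ℝ) (S : ℝ ≃o ℝ) (t : ℝ) (p : ℝ × ℝ) : ℝ × ℝ :=
  if |p.2 - 1 / 2| < h p.1 then
    (S.symm (S p.1 + t), 1 / 2 + (p.2 - 1 / 2) / h p.1 * h (S.symm (S p.1 + t))) else p

theorem fl_meas (hc : Continuous h) : Measurable fun q : ℝ × ℝ × ℝ => fl h S q.1 q.2 := by
  have c1 := S.continuous
  have c2 := S.symm.continuous
  have m := hc.measurable
  exact Measurable.ite (isOpen_lt (by fun_prop) (by fun_prop)).measurableSet (by fun_prop)
    measurable_snd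

theorem fr {u r : ℝ} (hu : |u| < 1) (h0 : 0 ≤ r) (h1 : r ≤ 1 / 2) :
    Int.fract (1 / 2 + u * r) = 1 / 2 + u * r := by
  rw [abs_lt] at hu
  exact Int.fract_eq_self.2 ⟨by nlinarith [hu.1], by nlinarith [hu.2]⟩

theorem mp (hc : Continuous h) (hp : ∀ x (k : ℤ), h (x + k) = h x) (h0 : ∀ x, 0 ≤ h x)
    (h1 : ∀ x, h x ≤ 1 / 2) (hS : ∀ x, HasDerivAt S (h x) x) (S0 : S 0 = 0)
    (S1 : ∀ x, S (x + 1) = S x + S 1) (t : ℝ) :
    MeasurePreserving (fun p => (Int.fract (fl h S t p).1, Int.fract (fl h S t p).2))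
      (volume.restrict (Ico (0 : ℝ) 1 ×ˢ Ico (0 : ℝ) 1))
      (volume.restrict (Ico (0 : ℝ) 1 ×ˢ Ico (0 : ℝ) 1)) := by
  have fm : Measurable (fl h S t) := (fl_meas hc).comp measurable_prodMk_left
  have gm : Measurable fun p => (Int.fract (fl h S t p).1, Int.fract (fl h S t p).2) :=
    (measurable_fract.comp fm.fst).prodMk (measurable_fract.comp fm.snd)
  refine ⟨gm, Measure.ext_of_lintegral _ fun G hG => ?_⟩
  have W : MeasurableSet {p : ℝ × ℝ | |p.2 - 1 / 2| < h p.1} :=
    (isOpen_lt (by fun_prop) (by fun_prop)).measurableSet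
  rw [lintegral_map hG gm, ← lintegral_inter_add_sdiff _ _ W, ← lintegral_inter_add_sdiff G _ W]
  congr 1
  swap
  · refine setLIntegral_congr_fun ((measurableSet_Ico.prod measurableSet_Ico).diff W) fun p hp => ?_
    have g : ¬ |p.2 - 1 / 2| < h p.1 := hp.2
    simp only [fl, if_neg g, Int.fract_eq_self.2 hp.1.1, Int.fract_eq_self.2 hp.1.2]
  have e : (Ico (0 : ℝ) 1 ×ˢ Ico (0 : ℝ) 1) ∩ {p : ℝ × ℝ | |p.2 - 1 / 2| < h p.1} =
      (Ico (0 : ℝ) 1 ×ˢ univ) ∩ {p : ℝ × ℝ | |p.2 - 1 / 2| < h p.1} := by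
    refine Subset.antisymm (fun p hp => ⟨⟨hp.1.1, trivial⟩, hp.2⟩) fun p hp => ⟨⟨hp.1.1, ?_⟩, hp.2⟩
    have := abs_lt.1 (lt_of_lt_of_le hp.2 (h1 _))
    exact ⟨by linarith [this.1], by linarith [this.2]⟩
  rw [e, pipe hc h0 (fun p => G (Int.fract (fl h S t p).1, Int.fract (fl h S t p).2)) (hG.comp gm),
    pipe hc h0 _ hG]
  let N : ℝ → ℝ≥0∞ := fun s => ∫⁻ u in Ioo (-1 : ℝ) 1,
    G (Int.fract (S.symm s), 1 / 2 + u * h (S.symm s))
  have hσ : 0 < S 1 := S0 ▸ S.strictMono one_pos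
  have hN : Function.Periodic N (S 1) := fun s => by
    have : S.symm (s + S 1) = S.symm s + 1 := by
      rw [OrderIso.symm_apply_eq, S1, OrderIso.apply_symm_apply]
    have h2 := hp (S.symm s) 1
    rw [Int.cast_one] at h2
    simp only [N, this, h2, Int.fract_add_one]
  have cv : ∀ t, ∫⁻ s in Ico 0 (S 1), N (s + t) =
      ∫⁻ x in Ico (0 : ℝ) 1, ENNReal.ofReal (h x) * N (S x + t) := fun t => by
    rw [← lintegral_image_eq_lintegral_deriv_mul_of_monotoneOn measurableSet_Ico
      (fun x _ => (hS x).hasDerivWithinAt) (S.monotone.monotoneOn _) fun s => N (s + t),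
      OrderIso.image_Ico, S0]
  have a1 := cv t
  have a2 := cv 0
  simp only [add_zero] at a2
  rw [shift hσ hN, a2] at a1
  refine Eq.trans ?_ (a1.symm.trans ?_)
  · refine lintegral_congr fun x => ?_
    rcases (h0 x).eq_or_lt with e | e
    · simp [← e]
    · congr 1
      refine setLIntegral_congr_fun measurableSet_Ioo fun u hu => ?_
      have hu' : |u| < 1 := abs_lt.2 hu
      have : |1 / 2 + u * h x - 1 / 2| < h x := by
        rw [add_sub_cancel_left, abs_mul, abs_of_pos e]; nlinarith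
      simp only [Function.comp, fl, if_pos this]
      rw [add_sub_cancel_left, mul_div_cancel_right₀ _ e.ne', fr hu' (h0 _) (h1 _)]
  · refine setLIntegral_congr_fun measurableSet_Ico fun x hx => ?_
    simp only [N, OrderIso.symm_apply_apply, Int.fract_eq_self.2 hx]

end Pool.Agent.H.MP_b7ec12_an
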